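import Pool.Agent.MP_c69980_ag.H4.Base

/-!
The mass of the light points: `LightStmt`.
-/

set_option autoImplicit false

noncomputable section

namespace Pool.Agent.MP_c69980_ag.H76

open Metric MeasureTheory Set Real
open scoped ENNReal
open H4

variable {ν : ℂ → ℝ}

lemma mu_mono {S T : Set ℂ} (h : S ⊆ T) : mu ν S ≤ mu ν T := lintegral_mono_set h

lemma mu_union (S T : Set ℂ) : mu ν (S ∪ T) ≤ mu ν S + mu ν T := lintegral_union_le _ _ _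

lemma mu_biUnion {ι : Type} (t : Finset ι) (S : ι → Set ℂ) :
    mu ν (⋃ i ∈ t, S i) ≤ ∑ i ∈ t, mu ν (S i) := by
  classical
  induction t using Finset.induction_on with
  | empty => simp [mu]
  | insert a t ha ih =>
    rw [Finset.set_biUnion_insert, Finset.sum_insert ha]
    exact (mu_union _ _).trans (add_le_add le_rfl ih)

lemma mu_const {S : Set ℂ} {e : ℂ} {s c : ℝ} (hs : 0 ≤ s) (hc : 0 ≤ c) (h : S ⊆ ball e s)
    (H : ∀ z ∈ S, ν z ≤ c) : mu ν S ≤ ENNReal.ofReal (4 * (c * s ^ 2)) := by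
  have h1 : mu ν S ≤ ∫⁻ _ in S, ENNReal.ofReal c :=
    setLIntegral_mono measurable_const fun z hz => ENNReal.ofReal_le_ofReal (H z hz)
  rw [setLIntegral_const] at h1
  refine h1.trans ((mul_le_mul_right (measure_mono h) _).trans ?_)
  rw [Complex.volume_ball, ← ENNReal.ofReal_pow hs, ← ENNReal.ofReal_coe_nnreal,
    ← ENNReal.ofReal_mul (by positivity), ← ENNReal.ofReal_mul hc]
  refine ENNReal.ofReal_le_ofReal ?_
  have : 0 ≤ c * s ^ 2 := by positivity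
  have p := pi_le_four
  simp only [NNReal.coe_real_pi]
  nlinarith

lemma mu_fin (h : Den (ball 0 1000) ν) : mu ν (ball 0 500) ≠ ⊤ := by
  have hs : closedBall (0 : ℂ) 500 ⊆ ball 0 1000 := closedBall_subset_ball (by norm_num)
  obtain ⟨c, hc⟩ := (isCompact_closedBall (0 : ℂ) 500).bddAbove_image (h.1.mono hs)
  refine ne_top_of_le_ne_top ENNReal.ofReal_ne_top
    (mu_const (e := 0) (s := 500) (c := max c 0) (by norm_num) (le_max_right _ _) Subset.rfl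
      fun z hz => (hc (mem_image_of_mem _ (ball_subset_closedBall hz))).trans (le_max_left _ _))

lemma ball_sub {e : ℂ} {s R : ℝ} (h : ‖e‖ + s ≤ R) : ball e s ⊆ ball 0 R :=
  ball_subset_ball' (by rw [dist_zero_right]; linarith)

/-- The truncated mass of a ball. -/
def am (ν : ℂ → ℝ) (e : ℂ) (s : ℝ) : ℝ := (mu ν (ball e s ∩ ball 0 500)).toReal

lemma am_mono (h : Den (ball 0 1000) ν) (e : ℂ) {s s' : ℝ} (hs : s ≤ s') :
    am ν e s ≤ am ν e s' :=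
  ENNReal.toReal_mono (ne_top_of_le_ne_top (mu_fin h) (mu_mono inter_subset_right))
    (mu_mono (inter_subset_inter_left _ (ball_subset_ball hs)))

lemma am_eq {e : ℂ} {s : ℝ} (h : ‖e‖ + s ≤ 500) : am ν e s = (mu ν (ball e s)).toReal := by
  unfold am
  rw [inter_eq_left.2 (ball_sub h)]

lemma am_diff (h : Den (ball 0 1000) ν) {e : ℂ} {s s' : ℝ} (hs : s ≤ s') (h' : ‖e‖ + s' ≤ 500) :
    mu ν (ball e s' \ ball e s) = ENNReal.ofReal (am ν e s' - am ν e s) := by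
  have f1 : mu ν (ball e s') ≠ ⊤ := ne_top_of_le_ne_top (mu_fin h) (mu_mono (ball_sub h'))
  have f2 : mu ν (ball e s' \ ball e s) ≠ ⊤ := ne_top_of_le_ne_top f1 (mu_mono sdiff_subset)
  have f3 : mu ν (ball e s) ≠ ⊤ := ne_top_of_le_ne_top f1 (mu_mono (ball_subset_ball hs))
  have e1 : mu ν (ball e s') = mu ν (ball e s) + mu ν (ball e s' \ ball e s) := by
    unfold mu
    rw [← lintegral_union (measurableSet_ball.diff measurableSet_ball) disjoint_sdiff_right,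
      union_sdiff_cancel (ball_subset_ball hs)]
  rw [am_eq h', am_eq (by linarith), e1, ENNReal.toReal_add f3 f2, add_sub_cancel_left,
    ENNReal.ofReal_toReal f2]

lemma den_mono {R : ℝ} (h : Den (ball 0 1000) ν) (hR : R ≤ 1000) : Den (ball 0 R) ν :=
  ⟨h.1.mono (ball_subset_ball hR), fun z hz => h.2 z (ball_subset_ball hR hz)⟩

lemma rad_le {ε s : ℝ} {z : ℂ} (hs : 0 < s) (h : ENNReal.ofReal ε ≤ mu ν (ball z s)) :
    rad ν ε z ≤ s := csInf_le ⟨0, fun _ a => a.1.le⟩ ⟨hs, h⟩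

/-- An annulus of large mass sees an end. -/
lemma big_end {u : Finset ℂ} {ε ε' : ℝ} {N : ℕ} {e : ℂ} {s : ℝ} (hε : 0 < ε) (hs : 0 < s)
    (hN : N * ε ≤ ε') (he : ‖e‖ ≤ 10) (hs' : s ≤ 50 / 8)
    (hC : ∀ (c : ℂ) (s : ℝ), 0 < s → ∃ t : Finset ℂ,
      t.card ≤ N ∧ (∀ w ∈ t, dist w c ≤ 128 * s) ∧ closedBall c (128 * s) ⊆ ⋃ w ∈ t, ball w s)
    (hu : ∀ z : ℂ, ‖z‖ ≤ 60 → ENNReal.ofReal ε ≤ mu ν (ball z 2) →
      ∃ e ∈ u, rad ν ε e ≤ 2 * rad ν ε z ∧ dist z e ≤ 3 * rad ν ε z)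
    (H : ENNReal.ofReal ε' < mu ν (ball e (8 * s) \ ball e s)) :
    ∃ f ∈ u, s ≤ 50 * dist e f ∧ dist e f ≤ 50 * s := by
  classical
  obtain ⟨t, t1, t2, t3⟩ := hC e (s / 16) (by positivity)
  have : ∃ w ∈ t, 15 / 16 * s ≤ dist w e ∧ ENNReal.ofReal ε ≤ mu ν (ball w (s / 16)) := by
    by_contra hn
    push Not at hn
    refine absurd H (not_lt.2 ?_)
    have c1 : ball e (8 * s) \ ball e s ⊆
        ⋃ w ∈ t.filter (fun w => 15 / 16 * s ≤ dist w e), ball w (s / 16) := by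
      intro z hz
      have := t3 (show z ∈ closedBall e (128 * (s / 16)) from
        mem_closedBall.2 (by linarith [mem_ball.1 hz.1]))
      simp only [mem_iUnion, Finset.mem_filter] at this ⊢
      obtain ⟨w, w1, w2⟩ := this
      refine ⟨w, ⟨w1, ?_⟩, w2⟩
      have a1 := hz.2
      rw [mem_ball, not_lt] at a1
      linarith [dist_triangle z w e, mem_ball.1 w2]
    refine (mu_mono c1).trans ((mu_biUnion _ _).trans ?_)
    refine (Finset.sum_le_card_nsmul _ _ (ENNReal.ofReal ε) fun w hw => ?_).trans ?_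
    · rw [Finset.mem_filter] at hw
      exact (hn w hw.1 hw.2).le
    · rw [nsmul_eq_mul, ← ENNReal.ofReal_natCast, ← ENNReal.ofReal_mul (by positivity)]
      refine ENNReal.ofReal_le_ofReal (le_trans (mul_le_mul_of_nonneg_right ?_ hε.le) hN)
      exact_mod_cast (Finset.card_filter_le _ _).trans t1
  obtain ⟨w, w1, w2, w3⟩ := this
  have w4 := t2 w w1
  have w5 : ‖w‖ ≤ 60 := by
    have := dist_triangle w e 0
    simp only [dist_zero_right] at this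
    linarith
  obtain ⟨f, f1, -, f2⟩ := hu w w5 (w3.trans (mu_mono (ball_subset_ball (by linarith))))
  have w6 := rad_le (by positivity) w3
  refine ⟨f, f1, ?_, ?_⟩
  · linarith [dist_triangle w f e, dist_comm e f]
  · linarith [dist_triangle e w f, dist_comm e w]

/-- Where a light point lies. -/
lemma locate (hR : RadiusStmt) (h : Den (ball 0 1000) ν) {u : Finset ℂ} {ε τ δ : ℝ} {d : ℂ → ℝ}
    (hε : 0 < ε) (hδ : 0 < δ) (h1 : ENNReal.ofReal ε ≤ mu ν (ball 0 1))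
    (hu0 : ∀ e ∈ u, ‖e‖ ≤ 60 ∧ ENNReal.ofReal ε ≤ mu ν (ball e 2))
    (hu : ∀ z : ℂ, ‖z‖ ≤ 60 → ENNReal.ofReal ε ≤ mu ν (ball z 2) →
      ∃ e ∈ u, rad ν ε e ≤ 2 * rad ν ε z ∧ dist z e ≤ 3 * rad ν ε z)
    (hd : FF u (1 / 8) d) (hδ' : ∀ e ∈ u, δ ≤ 3 / 16 * rad ν ε e) {z : ℂ} (hz : z ∈ ball 0 1)
    (hl : ν z * rad ν ε z ^ 2 < τ) :
    (∃ e ∈ u, z ∈ ball e (rad ν ε e) ∧ ν z ≤ 4 * τ / rad ν ε e ^ 2) ∨
    ∃ e ∈ u, ‖e‖ ≤ 10 ∧ ∃ j : ℕ, δ * 2 ^ j ≤ 50 * d e ∧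
      z ∈ ball e (δ * 2 ^ (j + 1)) \ ball e (δ * 2 ^ j) ∧ ν z ≤ 10 * τ / (δ * 2 ^ j) ^ 2 := by
  have z1 : ‖z‖ < 1 := by simpa using hz
  have z0 : 0 ≤ ν z := h.2 z (ball_subset_ball (by norm_num) hz)
  have z2 : ENNReal.ofReal ε ≤ mu ν (ball z 2) := h1.trans (mu_mono (ball_subset_ball'
    (by rw [dist_comm, dist_zero_right]; linarith)))
  obtain ⟨r0, r1, -⟩ := hR ν ε 1000 2 z h hε two_pos (by linarith) z2
  obtain ⟨e, e1, e2, e3⟩ := hu z (by linarith) z2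
  obtain ⟨s0, -, s2⟩ := hR ν ε 1000 2 e h hε two_pos (by linarith [(hu0 e e1).1]) (hu0 e e1).2
  set r := rad ν ε z
  rcases lt_or_ge (dist z e) (r / 2) with c | c
  · left
    have a1 : r ≤ rad ν ε e + dist z e := rad_le (by positivity)
      (s2.symm.le.trans (mu_mono (ball_subset_ball' (by rw [dist_comm]))))
    refine ⟨e, e1, mem_ball.2 (by linarith), ?_⟩
    rw [le_div_iff₀ (by positivity)]
    have a2 : rad ν ε e ^ 2 ≤ 4 * r ^ 2 := by nlinarith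
    nlinarith [mul_le_mul_of_nonneg_left a2 z0]
  · right
    obtain ⟨f, f1, f2, f3⟩ := hd.2.1 (r / 16) (by positivity) (by linarith) e e1
    have a1 : dist z f ≤ 25 / 8 * r := by linarith [dist_triangle z e f]
    have a2 : 3 / 8 * r ≤ dist z f := by linarith [dist_triangle z f e, dist_comm e f]
    have a3 : 1 ≤ dist z f / δ := by
      rw [le_div_iff₀ hδ]; linarith [hδ' e e1]
    obtain ⟨j, j1, j2⟩ := exists_nat_pow_near a3 (show (1 : ℝ) < 2 by norm_num)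
    rw [le_div_iff₀ hδ] at j1
    rw [div_lt_iff₀ hδ] at j2
    refine ⟨f, f1, ?_, j, by linarith, ⟨mem_ball.2 (by linarith), ?_⟩, ?_⟩
    · have := dist_triangle f z 0
      simp only [dist_zero_right] at this
      linarith [dist_comm z f]
    · rw [mem_ball, not_lt]; linarith
    · have a4 : 0 < δ * 2 ^ j := by positivity
      rw [le_div_iff₀ (by positivity)]
      have a5 : (δ * 2 ^ j) ^ 2 ≤ 10 * r ^ 2 := by nlinarith
      nlinarith [mul_le_mul_of_nonneg_left a5 z0]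

lemma exists_J {δ : ℝ} (δ0 : 0 < δ) (x : ℝ) : ∃ J : ℕ, ∀ j : ℕ, j < J ↔ δ * 2 ^ j ≤ x := by
  classical
  have ex : ∃ j : ℕ, x < δ * 2 ^ j := by
    obtain ⟨j, hj⟩ := pow_unbounded_of_one_lt (x / δ) (show (1 : ℝ) < 2 by norm_num)
    exact ⟨j, by rw [div_lt_iff₀ δ0] at hj; linarith⟩
  refine ⟨Nat.find ex, fun j => ⟨fun a => not_lt.1 (Nat.find_min ex a), fun a => ?_⟩⟩
  by_contra b
  have := Nat.find_spec ex
  have c : (2 : ℝ) ^ Nat.find ex ≤ 2 ^ j := pow_le_pow_right₀ (by norm_num) (not_lt.1 b)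
  nlinarith

lemma exists_k (u : Finset ℂ) (f : ℂ → ℝ) (h : ∀ e ∈ u, 0 < f e) :
    ∃ k : ℤ, ∀ e ∈ u, (2 : ℝ) ^ k ≤ 3 / 16 * f e := by
  rcases u.eq_empty_or_nonempty with rfl | hne
  · exact ⟨0, by simp⟩
  · obtain ⟨e, e1, e2⟩ := u.exists_min_image f hne
    obtain ⟨k, k1, -⟩ := exists_mem_Ico_zpow (x := 3 / 16 * f e)
      (by have := h e e1; positivity) (show (1 : ℝ) < 2 by norm_num)
    exact ⟨k, fun g hg => by linarith [e2 g hg]⟩

lemma ann_eq (h : Den (ball 0 1000) ν) {e : ℂ} {δ : ℝ} {j : ℕ} (δ0 : 0 < δ) (he : ‖e‖ ≤ 10)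
    (hj : δ * 2 ^ j ≤ 50 / 8) : mu ν (ball e (8 * (δ * 2 ^ j)) \ ball e (δ * 2 ^ j)) =
      ENNReal.ofReal (am ν e (δ * 2 ^ (j + 3)) - am ν e (δ * 2 ^ j)) := by
  have b3 : 0 < δ * 2 ^ j := by positivity
  rw [show δ * 2 ^ (j + 3) = 8 * (δ * 2 ^ j) by ring]
  exact am_diff h (by linarith) (by linarith)

lemma am_mono' (h : Den (ball 0 1000) ν) (e : ℂ) {δ : ℝ} (δ0 : 0 < δ) :
    Monotone fun j : ℕ => am ν e (δ * 2 ^ j) := fun _ _ hij =>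
  am_mono h e (mul_le_mul_of_nonneg_left (pow_le_pow_right₀ (by norm_num) hij) δ0.le)

lemma quant {n : ℕ} {F : ℂ → Fin n → ℂ} {εq A : ℝ} (hF : Crv (ball 0 1000) F)
    (h : Den (ball 0 1000) (lam F))
    (hQ : ∀ (F : ℂ → Fin n → ℂ) (c : ℂ) (t m : ℝ), 0 < t → Crv (ball c (8 * t)) F → 0 ≤ m →
      m ≤ εq → mu (lam F) (ball c (4 * t) \ ball c (t / 2)) ≤ ENNReal.ofReal m →
      ∃ N : ℕ, |(mu (lam F) (ball c t)).toReal - π * N| ≤ A * m)
    {e : ℂ} {δ : ℝ} {j : ℕ} (δ0 : 0 < δ) (he : ‖e‖ ≤ 10) (hj : δ * 2 ^ j ≤ 50 / 8)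
    (hb : am (lam F) e (δ * 2 ^ (j + 3)) - am (lam F) e (δ * 2 ^ j) ≤ εq) :
    ∃ N : ℕ, |am (lam F) e (δ * 2 ^ (j + 1)) - π * N| ≤
      A * (am (lam F) e (δ * 2 ^ (j + 3)) - am (lam F) e (δ * 2 ^ j)) := by
  have b3 : 0 < δ * 2 ^ j := by positivity
  have b6 : ball e (8 * (2 * (δ * 2 ^ j))) ⊆ ball 0 1000 := ball_sub (by linarith)
  obtain ⟨N, hN⟩ := hQ F e (2 * (δ * 2 ^ j)) _ (by positivity)
    ⟨hF.1.mono b6, fun z hz => hF.2 z (b6 hz)⟩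
    (sub_nonneg.2 (am_mono' h e δ0 (show j ≤ j + 3 by omega))) hb (by
      rw [← ann_eq h δ0 he hj, show 4 * (2 * (δ * 2 ^ j)) = 8 * (δ * 2 ^ j) by ring,
        show 2 * (δ * 2 ^ j) / 2 = δ * 2 ^ j by ring])
  refine ⟨N, ?_⟩
  rw [show δ * 2 ^ (j + 1) = 2 * (δ * 2 ^ j) by ring, am_eq (s := 2 * (δ * 2 ^ j)) (by linarith)]
  exact hN

lemma count {u u' : Finset ℂ} {big : ℂ → Finset ℕ} {d : ℂ → ℝ} {N : ℕ} (k : ℤ)
    (hP : ∀ p : Finset (ℂ × ℤ), (∀ a ∈ p, a.1 ∈ u ∧ (2 : ℝ) ^ a.2 ≤ 50 * d a.1 ∧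
      ∃ e ∈ u, (2 : ℝ) ^ a.2 ≤ 50 * dist a.1 e ∧ dist a.1 e ≤ 50 * (2 : ℝ) ^ a.2) →
      p.card ≤ N * u.card)
    (H : ∀ e ∈ u', ∀ j ∈ big e, e ∈ u ∧ (2 : ℝ) ^ k * 2 ^ j ≤ 50 * d e ∧
      ∃ f ∈ u, (2 : ℝ) ^ k * 2 ^ j ≤ 50 * dist e f ∧ dist e f ≤ 50 * ((2 : ℝ) ^ k * 2 ^ j)) :
    ∑ e ∈ u', (big e).card ≤ N * u.card := by
  classical
  have inj : Function.Injective fun x : (Σ _ : ℂ, ℕ) => ((x.1, k + x.2) : ℂ × ℤ) := by
    rintro ⟨x, i⟩ ⟨y, j⟩ hxy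
    simp only [Prod.mk.injEq, add_right_inj, Nat.cast_inj] at hxy
    obtain ⟨rfl, rfl⟩ := hxy
    rfl
  rw [← Finset.card_sigma, ← Finset.card_image_of_injective _ inj]
  refine hP _ fun x hx => ?_
  obtain ⟨⟨e, j⟩, y1, rfl⟩ := Finset.mem_image.1 hx
  obtain ⟨y2, y3⟩ := Finset.mem_sigma.1 y1
  have e1 : (2 : ℝ) ^ (k + (j : ℤ)) = 2 ^ k * 2 ^ j := by
    rw [zpow_add₀ two_ne_zero, zpow_natCast]
  simp only [e1]
  exact H e y2 j y3

lemma massA {e : ℂ} {r τ : ℝ} (hr : 0 < r) (hτ : 0 < τ) :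
    mu ν {z | z ∈ ball e r ∧ ν z ≤ 4 * τ / r ^ 2} ≤ ENNReal.ofReal (16 * τ) := by
  refine (mu_const hr.le (by positivity) (fun _ hz => hz.1) fun _ hz => hz.2).trans
    (ENNReal.ofReal_le_ofReal (le_of_eq ?_))
  field_simp
  norm_num

lemma massB (h : Den (ball 0 1000) ν) {e : ℂ} {δ τ κ : ℝ} {j : ℕ} (δ0 : 0 < δ) (hτ : 0 < τ)
    (hκ : 160 * τ ≤ κ) (he : ‖e‖ ≤ 10) (hj : δ * 2 ^ j ≤ 50 / 8) :
    mu ν {z | z ∈ ball e (δ * 2 ^ (j + 1)) \ ball e (δ * 2 ^ j) ∧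
      ν z ≤ 10 * τ / (δ * 2 ^ j) ^ 2} ≤
      ENNReal.ofReal (min (am ν e (δ * 2 ^ (j + 1)) - am ν e (δ * 2 ^ j)) κ) := by
  rw [show δ * 2 ^ (j + 1) = 2 * (δ * 2 ^ j) by ring]
  have b3 : 0 < δ * 2 ^ j := by positivity
  generalize δ * 2 ^ j = s at *
  rcases le_total (am ν e (2 * s) - am ν e s) κ with c | c
  · rw [min_eq_left c]
    exact (mu_mono fun _ hz => hz.1).trans (am_diff h (by linarith) (by linarith)).le
  · rw [min_eq_right c]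
    refine (mu_const (by positivity) (by positivity) (fun _ hz => hz.1.1)
      fun _ hz => hz.2).trans (ENNReal.ofReal_le_ofReal (le_trans (le_of_eq ?_) hκ))
    field_simp
    norm_num

lemma total {u u' : Finset ℂ} {b : ℂ → ℕ} {N : ℕ} {η ε τ : ℝ} (hη : 0 < η) (hε : 0 < ε)
    (hτ : 32 * τ ≤ η * ε) (h1 : ∑ e ∈ u', b e ≤ N * u.card) (h2 : u'.card ≤ u.card) :
    ∑ _e ∈ u, 16 * τ + ∑ e ∈ u', η * ε / (2 * (N + 1)) * (b e + 1) ≤ η * (u.card * ε) := by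
  have c1 : ((∑ e ∈ u', b e : ℕ) : ℝ) ≤ N * u.card := by exact_mod_cast h1
  have c2 : (u'.card : ℝ) ≤ u.card := by exact_mod_cast h2
  have p1 : 0 < η * ε / (2 * (N + 1)) := by positivity
  have c3 : η * ε / (2 * (N + 1)) * (N + 1) = η * ε / 2 := by field_simp
  generalize η * ε / (2 * (N + 1)) = η' at *
  have c4 : (0 : ℝ) ≤ u.card := by positivity
  rw [← Finset.mul_sum, ← Finset.mul_sum, Finset.sum_add_distrib, ← Nat.cast_sum,
    Finset.sum_const, Finset.sum_const, nsmul_eq_mul, nsmul_eq_mul, mul_one]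
  have c5 : η' * (((∑ e ∈ u', b e : ℕ) : ℝ) + u'.card) ≤ η' * ((N + 1) * u.card) :=
    mul_le_mul_of_nonneg_left (by linarith) p1.le
  rw [← mul_assoc, c3] at c5
  nlinarith [mul_le_mul_of_nonneg_right hτ c4]

lemma assemble {L : Set ℂ} {u u' : Finset ℂ} {J : ℂ → ℕ} {SA : ℂ → Set ℂ} {SB : ℂ → ℕ → Set ℂ}
    {x y : ℂ → ℝ} {m : ℂ → ℕ → ℝ} {T : ℝ}
    (cov : L ⊆ (⋃ e ∈ u, SA e) ∪ ⋃ e ∈ u', ⋃ j ∈ Finset.range (J e), SB e j)
    (hx : ∀ e ∈ u, 0 ≤ x e ∧ mu ν (SA e) ≤ ENNReal.ofReal (x e))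
    (hm : ∀ e ∈ u', ∀ j ∈ Finset.range (J e), 0 ≤ m e j ∧ mu ν (SB e j) ≤ ENNReal.ofReal (m e j))
    (hy : ∀ e ∈ u', ∑ j ∈ Finset.range (J e), m e j ≤ y e)
    (hT : ∑ e ∈ u, x e + ∑ e ∈ u', y e ≤ T) : mu ν L ≤ ENNReal.ofReal T := by
  have y0 : ∀ e ∈ u', 0 ≤ y e := fun e he =>
    (Finset.sum_nonneg fun j hj => (hm e he j hj).1).trans (hy e he)
  have mB : ∀ e ∈ u', mu ν (⋃ j ∈ Finset.range (J e), SB e j) ≤ ENNReal.ofReal (y e) :=
    fun e he => by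
      refine (mu_biUnion _ _).trans ((Finset.sum_le_sum fun j hj => (hm e he j hj).2).trans ?_)
      rw [← ENNReal.ofReal_sum_of_nonneg fun j hj => (hm e he j hj).1]
      exact ENNReal.ofReal_le_ofReal (hy e he)
  refine (mu_mono cov).trans ((mu_union _ _).trans ?_)
  refine (add_le_add ((mu_biUnion _ _).trans (Finset.sum_le_sum fun e he => (hx e he).2))
    ((mu_biUnion _ _).trans (Finset.sum_le_sum mB))).trans ?_
  rw [← ENNReal.ofReal_sum_of_nonneg fun e he => (hx e he).1, ← ENNReal.ofReal_sum_of_nonneg y0,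
    ← ENNReal.ofReal_add (Finset.sum_nonneg fun e he => (hx e he).1) (Finset.sum_nonneg y0)]
  exact ENNReal.ofReal_le_ofReal hT

theorem light : SeqStmt → QuantStmt → RadiusStmt → EndsStmt → FFStmt → CoverStmt → PairStmt →
    LapQStmt → LightStmt := by
  classical
  intro hS hQ hR hE hF hC hP hL n
  obtain ⟨εq, A, q0, A0, hQ⟩ := hQ n
  obtain ⟨εs, s0, hS⟩ := hS A A0
  obtain ⟨N₁, hC⟩ := hC 128
  obtain ⟨N₂, hP⟩ := hP 50 (by norm_num)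
  obtain ⟨ε', p0, q1, q2⟩ : ∃ ε' : ℝ, 0 < ε' ∧ ε' ≤ εq ∧ ε' ≤ εs :=
    ⟨_, lt_min q0 s0, min_le_left _ _, min_le_right _ _⟩
  refine ⟨ε' / (N₁ + 1), by positivity, fun ε η hε hε₀ hη => ?_⟩
  obtain ⟨κ, κ0, hS⟩ := hS (η * ε / (2 * (N₂ + 1))) (by positivity)
  obtain ⟨τ, p2, p3, p4⟩ : ∃ τ : ℝ, 0 < τ ∧ 160 * τ ≤ κ ∧ 32 * τ ≤ η * ε :=
    ⟨min (κ / 160) (η * ε / 32), by positivity, by linarith [min_le_left (κ / 160) (η * ε / 32)],
      by linarith [min_le_right (κ / 160) (η * ε / 32)]⟩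
  have p5 : N₁ * ε ≤ ε' := by
    rw [le_div_iff₀ (by positivity)] at hε₀
    linarith
  refine ⟨τ, p2, fun F hFc h1 => ?_⟩
  have h := (hL n _ F isOpen_ball hFc).2.1
  obtain ⟨u, u1, u2, u3⟩ := hE (lam F) ε 60 2 (den_mono h (by norm_num)) hε two_pos
  obtain ⟨d, hd⟩ := hF u (1 / 8) (by norm_num)
  have r0 : ∀ e ∈ u, 0 < rad (lam F) ε e := fun e he =>
    (hR _ ε 1000 2 e h hε two_pos (by linarith [(u2 e he).1]) (u2 e he).2).1
  obtain ⟨k, hk⟩ := exists_k u _ r0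
  have δ0 : 0 < (2 : ℝ) ^ k := by positivity
  choose J hJ using fun e => exists_J δ0 (50 * d e)
  have small : ∀ e ∈ u, ∀ j < J e, (2 : ℝ) ^ k * 2 ^ j ≤ 50 / 8 := fun e he j hj => by
    linarith [(hJ e j).1 hj, (hd.1 e he).2]
  have cnt := count (u' := u.filter fun e => ‖e‖ ≤ 10) (big := fun e => (Finset.range (J e)).filter
    fun j => ε' < am (lam F) e (2 ^ k * 2 ^ (j + 3)) - am (lam F) e (2 ^ k * 2 ^ j)) k
    (fun p => hP u (1 / 8) d p hd) fun e he j hj => by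
      obtain ⟨y1, y2⟩ := Finset.mem_filter.1 he
      obtain ⟨y4, y5⟩ := Finset.mem_filter.1 hj
      have y6 : j < J e := Finset.mem_range.1 y4
      refine ⟨y1, (hJ e j).1 y6, big_end hε (by positivity) p5 y2 (small e y1 j y6) hC u3 ?_⟩
      rw [ann_eq h δ0 y2 (small e y1 j y6)]
      exact (ENNReal.ofReal_lt_ofReal_iff (p0.trans y5)).2 y5
  refine (assemble (J := J) ?_ (fun e he => ⟨by positivity, massA (e := e) (r0 e he) p2⟩)
    (fun e he j hj => ⟨le_min (sub_nonneg.2 (am_mono' h e δ0 (Nat.le_succ j))) κ0.le,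
      massB h δ0 p2 p3 (Finset.mem_filter.1 he).2
        (small e (Finset.mem_filter.1 he).1 j (Finset.mem_range.1 hj))⟩)
    (fun e he => hS ε' (fun j => am (lam F) e (2 ^ k * 2 ^ j)) (J e) q2 (am_mono' h e δ0)
      fun j hj hb => quant hFc h hQ δ0 (Finset.mem_filter.1 he).2
        (small e (Finset.mem_filter.1 he).1 j hj) (hb.trans q1))
    (total hη hε p4 cnt (Finset.card_filter_le _ _))).trans ?_
  · intro z hz
    rcases locate hR h hε δ0 h1 u2 u3 hd hk hz.1 hz.2 with ⟨e, e1, e2⟩ | ⟨e, e1, e2, j, j1, j2⟩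
    · exact Or.inl (mem_iUnion₂.2 ⟨e, e1, e2⟩)
    · exact Or.inr (mem_iUnion₂.2 ⟨e, Finset.mem_filter.2 ⟨e1, e2⟩,
        mem_iUnion₂.2 ⟨j, Finset.mem_range.2 ((hJ e j).2 j1), j2⟩⟩)
  · rw [ENNReal.ofReal_mul hη.le, ENNReal.ofReal_mul (Nat.cast_nonneg _), ENNReal.ofReal_natCast]
    have : ball (0 : ℂ) (60 + 2) ⊆ ball 0 500 := ball_subset_ball (by norm_num)
    exact mul_le_mul_right (u1.trans (mu_mono this)) _

end Pool.Agent.MP_c69980_ag.H76
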