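import Pool.Agent.MP_c69980_ag.H4.Base

/-!
Decay along a neck: the sequence estimate `SeqStmt`.
-/

set_option autoImplicit false

noncomputable section

namespace Pool.Agent.MP_c69980_ag.H76

open Real
open H4

/-- The odd square root. -/
def osq (x : ℝ) : ℝ := √x - √(-x)

lemma osq_core {A x y : ℝ} (hA : 0 < A) (hx : 0 ≤ x) (hxy : x ≤ y) (h : x ≤ A * (y - x)) :
    0 ≤ √y - √x ∧ y - x ≤ 4 * (A + 1) * (√y - √x) ^ 2 := by
  have h1 : √x ≤ √y := sqrt_le_sqrt hxy
  have h2 : 0 ≤ √x := sqrt_nonneg _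
  have h3 : √x ^ 2 = x := sq_sqrt hx
  have h4 : √y ^ 2 = y := sq_sqrt (hx.trans hxy)
  refine ⟨by linarith, ?_⟩
  rcases (sub_nonneg.2 hxy).eq_or_lt with h0 | h0
  · rw [← h0]; positivity
  · have h5 : (√y + √x) ^ 2 ≤ 4 * (A + 1) * (y - x) := by nlinarith
    have h6 : (y - x) * (y - x) = (√y - √x) ^ 2 * (√y + √x) ^ 2 := by
      have : y - x = (√y - √x) * (√y + √x) := by nlinarith
      rw [this]; ring
    have h7 : (y - x) * (y - x) ≤ (4 * (A + 1) * (√y - √x) ^ 2) * (y - x) := by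
      rw [h6]
      have := mul_le_mul_of_nonneg_left h5 (sq_nonneg (√y - √x))
      linarith
    exact le_of_mul_le_mul_right h7 h0

lemma osq_step {A x w y : ℝ} (hA : 0 < A) (h1 : x ≤ w) (h2 : w ≤ y) (h : |w| ≤ A * (y - x)) :
    0 ≤ osq y - osq x ∧ y - x ≤ 4 * (A + 1) * (osq y - osq x) ^ 2 := by
  obtain ⟨a1, a2⟩ := abs_le.1 h
  unfold osq
  rcases le_total 0 x with hx | hx
  · have := osq_core hA hx (h1.trans h2) (h1.trans a2)
    rw [sqrt_eq_zero'.2 (show -y ≤ 0 by linarith), sqrt_eq_zero'.2 (show -x ≤ 0 by linarith)]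
    simpa using this
  rcases le_total y 0 with hy | hy
  · have := osq_core (x := -y) (y := -x) hA (by linarith) (by linarith) (by linarith)
    rw [sqrt_eq_zero'.2 hy, sqrt_eq_zero'.2 hx]
    have e : 0 - √(-y) - (0 - √(-x)) = √(-x) - √(-y) := by ring
    rw [e]
    exact ⟨this.1, by linarith [this.2]⟩
  · rw [sqrt_eq_zero'.2 (show -y ≤ 0 by linarith), sqrt_eq_zero'.2 hx]
    have b1 : 0 ≤ √y := sqrt_nonneg _
    have b2 : 0 ≤ √(-x) := sqrt_nonneg _
    have b3 : √y ^ 2 = y := sq_sqrt hy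
    have b4 : √(-x) ^ 2 = -x := sq_sqrt (by linarith)
    refine ⟨by linarith, ?_⟩
    have b5 : y - x ≤ (√y - 0 - (0 - √(-x))) ^ 2 := by nlinarith [mul_nonneg b1 b2]
    nlinarith [sq_nonneg (√y - 0 - (0 - √(-x)))]

/-- The potential. -/
def pot (t : ℝ) : ℝ := osq (t - π * round (t / π))

lemma pot_abs (t : ℝ) : |pot t| ≤ 2 := by
  have h := abs_sub_round (t / π)
  have e : t - π * round (t / π) = π * (t / π - round (t / π)) := by
    field_simp
  obtain ⟨a1, a2⟩ := abs_le.1 h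
  have p1 := pi_pos
  have p2 := pi_le_four
  have b1 : √(t - π * round (t / π)) ≤ 2 := by
    rw [sqrt_le_left (by norm_num), e]; nlinarith
  have b2 : √(-(t - π * round (t / π))) ≤ 2 := by
    rw [sqrt_le_left (by norm_num), e]; nlinarith
  unfold pot osq
  rw [abs_le]
  constructor <;> linarith [sqrt_nonneg (t - π * round (t / π)),
    sqrt_nonneg (-(t - π * round (t / π)))]

lemma pot_eq {t : ℝ} {N : ℕ} (h : |t - π * N| ≤ 1) : pot t = osq (t - π * N) := by
  obtain ⟨a1, a2⟩ := abs_le.1 h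
  have p1 := pi_gt_three
  have : round (t / π) = (N : ℤ) := by
    rw [round_eq_iff]
    push_cast
    constructor
    · rw [le_div_iff₀ pi_pos]; nlinarith
    · rw [div_lt_iff₀ pi_pos]; nlinarith
  unfold pot
  rw [this]
  simp

lemma tele (f : ℕ → ℝ) (J : ℕ) : ∑ k ∈ Finset.range J, (f (k + 3) - f k) =
    f (J + 2) + f (J + 1) + f J - (f 2 + f 1 + f 0) := by
  induction J with
  | zero => simp
  | succ J ih => rw [Finset.sum_range_succ, ih]; ring

theorem seq : SeqStmt := by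
  intro A hA
  refine ⟨1 / (A + 1), by positivity, fun η hη => ?_⟩
  refine ⟨min (η / 2) ((η / 24) ^ 2 / (4 * (A + 1))), by positivity, fun ε a J hε ha H => ?_⟩
  set κ := min (η / 2) ((η / 24) ^ 2 / (4 * (A + 1))) with hκ
  have k0 : 0 < κ := by positivity
  have k1 : κ ≤ η / 2 := min_le_left _ _
  have k2 : 4 * (A + 1) * κ ≤ (η / 24) ^ 2 := by
    have := min_le_right (η / 2) ((η / 24) ^ 2 / (4 * (A + 1)))
    rw [← hκ, le_div_iff₀ (by positivity)] at this
    linarith
  have e1 : (A + 1) * ε ≤ 1 := by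
    rw [le_div_iff₀ (by positivity)] at hε
    linarith
  have key : ∀ k ∈ Finset.range J, min (a (k + 1) - a k) κ ≤
      η / 24 * (pot (a (k + 3)) - pot (a k)) + if ε < a (k + 3) - a k then η else 0 := by
    intro k hk
    have m1 : a k ≤ a (k + 1) := ha (by omega)
    have m2 : a (k + 1) ≤ a (k + 3) := ha (by omega)
    split_ifs with hb
    · obtain ⟨b1, b2⟩ := abs_le.1 (pot_abs (a (k + 3)))
      obtain ⟨b3, b4⟩ := abs_le.1 (pot_abs (a k))
      have := min_le_right (a (k + 1) - a k) κ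
      nlinarith
    · push Not at hb
      obtain ⟨N, hN⟩ := H k (Finset.mem_range.1 hk) hb
      obtain ⟨c1, c2⟩ := abs_le.1 hN
      have c3 : A * (a (k + 3) - a k) ≤ A * ε := mul_le_mul_of_nonneg_left hb hA.le
      have c0 : 0 ≤ A * (a (k + 3) - a k) := (abs_nonneg _).trans hN
      rw [pot_eq (N := N) (t := a (k + 3)) (abs_le.2 ⟨by linarith, by linarith⟩),
        pot_eq (N := N) (t := a k) (abs_le.2 ⟨by linarith, by linarith⟩), add_zero]
      obtain ⟨d1, d2⟩ := osq_step (x := a k - π * N) (w := a (k + 1) - π * N)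
        (y := a (k + 3) - π * N) hA (by linarith) (by linarith) (by
          convert hN using 2; ring)
      set G := osq (a (k + 3) - π * N) - osq (a k - π * N)
      have d3 : 0 ≤ min (a (k + 1) - a k) κ := le_min (by linarith) k0.le
      have d4 : min (a (k + 1) - a k) κ ≤ 4 * (A + 1) * G ^ 2 :=
        (min_le_left _ _).trans (by linarith)
      have d5 : min (a (k + 1) - a k) κ ≤ κ := min_le_right _ _
      refine abs_le_of_sq_le_sq' ?_ (by positivity) |>.2
      calc min (a (k + 1) - a k) κ ^ 2 ≤ κ * (4 * (A + 1) * G ^ 2) := by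
            rw [pow_two]; exact mul_le_mul d5 d4 d3 k0.le
        _ = (4 * (A + 1) * κ) * G ^ 2 := by ring
        _ ≤ (η / 24) ^ 2 * G ^ 2 := mul_le_mul_of_nonneg_right k2 (sq_nonneg _)
        _ = (η / 24 * G) ^ 2 := by ring
  refine (Finset.sum_le_sum key).trans ?_
  rw [Finset.sum_add_distrib, ← Finset.mul_sum, tele (fun k => pot (a k)), ← Finset.sum_filter,
    Finset.sum_const, nsmul_eq_mul]
  obtain ⟨b1, b2⟩ := abs_le.1 (pot_abs (a (J + 2)))
  obtain ⟨b3, b4⟩ := abs_le.1 (pot_abs (a (J + 1)))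
  obtain ⟨b5, b6⟩ := abs_le.1 (pot_abs (a J))
  obtain ⟨b7, b8⟩ := abs_le.1 (pot_abs (a 2))
  obtain ⟨b9, b10⟩ := abs_le.1 (pot_abs (a 1))
  obtain ⟨b11, b12⟩ := abs_le.1 (pot_abs (a 0))
  nlinarith

end Pool.Agent.MP_c69980_ag.H76
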